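import Pool.Agent.Helper14.GS.St

/-!
# GS module A7 (helper12): choice of the parameters

Statement: `Pool.Agent.Helper14.GS.StA7` (helper14).
-/

namespace Pool.Agent.Helper12.GS

open Pool.Agent.Helper14.GS

/-- Module A7. -/
theorem A7 : StA7 := by
  intro k C hk hC
  -- the numbers
  set B : ℕ := 2 ^ (k + 3) * C with hB
  set n : ℕ := B ^ (k + 5) with hn
  have h2k : 8 * (k + 1) ≤ 2 ^ (k + 3) := by
    have h1 : k + 1 ≤ 2 ^ k := Nat.lt_two_pow_self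
    have h2 : 2 ^ (k + 3) = 8 * 2 ^ k := by ring
    rw [h2]
    exact Nat.mul_le_mul_left 8 h1
  have hB1 : 2 ^ (k + 3) ≤ B := Nat.le_mul_of_pos_right _ hC
  have hB2 : 8 * C ≤ B := by
    rw [hB]
    exact Nat.mul_le_mul_right C (by omega)
  have hB3 : C ≤ B := by omega
  have hBn : B ≤ n := by
    rw [hn]
    exact Nat.le_self_pow (by omega) B
  have hn17 : 17 ≤ n := by omega
  have hn2k : 2 * k + 2 ≤ n := by omega
  obtain ⟨A, hA⟩ : ∃ A : ℕ, A + (2 * k + 11) = k * k := by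
    have h1 : 2 * k + 11 ≤ k * k := by nlinarith
    exact ⟨k * k - (2 * k + 11), Nat.sub_add_cancel h1⟩
  have hA1 : 1 ≤ A := by nlinarith
  obtain ⟨b, hb⟩ : ∃ b : ℕ, b + 51 = 20 * k := ⟨20 * k - 51, by omega⟩
  have hx : (17 : ℝ) ≤ (n : ℝ) := by exact_mod_cast hn17
  have hx1 : (1 : ℝ) ≤ (n : ℝ) := by linarith
  have hx0 : (0 : ℝ) < (n : ℝ) := by linarith
  refine ⟨n, hn2k, (n : ℝ) ^ (A * k), one_le_pow₀ hx1, ?_⟩
  intro θ hθ
  have hex : ∃ t : ℕ, θ ≤ (n : ℝ) ^ (A * t) := by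
    obtain ⟨m, hm⟩ := pow_unbounded_of_one_lt θ
      (one_lt_pow₀ (by linarith : (1 : ℝ) < (n : ℝ)) (by omega : A ≠ 0))
    exact ⟨m, by rw [pow_mul]; exact hm.le⟩
  classical
  obtain ⟨t, ht1, ht2⟩ : ∃ t : ℕ, θ ≤ (n : ℝ) ^ (A * t) ∧ ∀ m < t, (n : ℝ) ^ (A * m) < θ :=
    ⟨Nat.find hex, Nat.find_spec hex, fun m hm => not_le.1 (Nat.find_min hex hm)⟩
  have htk : k ≤ t := by
    by_contra hcon
    have h1 : A * t < A * k := (Nat.mul_lt_mul_left (by omega)).2 (by omega)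
    have h2 : (n : ℝ) ^ (A * t) < (n : ℝ) ^ (A * k) :=
      pow_lt_pow_right₀ (by linarith) h1
    linarith
  obtain ⟨s, rfl⟩ : ∃ s : ℕ, t = s + 1 := ⟨t - 1, by omega⟩
  have hθlow : (n : ℝ) ^ (A * s) ≤ θ := (ht2 s (Nat.lt_succ_self s)).le
  have hθpos : 0 < θ := lt_of_lt_of_le (by positivity) hθlow
  -- exponent inequalities
  have hks1 : 20 * s ≤ k * s := Nat.mul_le_mul_right s hk
  have hks2 : 19 * k ≤ k * s := by
    have : 19 ≤ s := by omega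
    calc 19 * k = k * 19 := by ring
      _ ≤ k * s := Nat.mul_le_mul_left k this
  have hks3 : k * k ≤ k * s + k := by
    calc k * k ≤ k * (s + 1) := Nat.mul_le_mul_left k htk
      _ = k * s + k := by ring
  have hAs : A * s + (2 * k + 11) * s = k * k * s := by rw [← add_mul, hA]
  have hAt : A * (s + 1) + (2 * k + 11) * (s + 1) = k * k * (s + 1) := by rw [← add_mul, hA]
  have hbs : b * s + 51 * s = 20 * k * s := by rw [← add_mul, hb]
  have E1 : (2 * k + 9) * (s + 1) + A * (s + 1) + (s + 1) + 1 ≤ k * (k * (s + 1) + 1) := by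
    nlinarith
  have E2 : (2 * k + 9) * (s + 1) * 2 + 1 ≤ b * s := by nlinarith
  have E3 : (s + 1) + (2 * k + 9) * (s + 1) + (s + 1) + k * ((k + 4) * (s + 1) + 1) ≤
      A * s + b * s := by nlinarith
  have E4 : (2 * k + 9) * (s + 1) + 1 ≤ 4 * k * (s + 1) := by nlinarith
  have E5 : (k + 4) * (s + 1) + 1 ≤ (k + 5) * (s + 1) := by nlinarith
  -- powers
  have hpow : ∀ c : ℕ, 1 ≤ c → c ≤ B → (c : ℝ) ^ ((k + 4) * (s + 1) + 1) ≤
      (n : ℝ) ^ (s + 1) := by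
    intro c hc hcB
    have h1 : c ^ ((k + 4) * (s + 1) + 1) ≤ n ^ (s + 1) := by
      calc c ^ ((k + 4) * (s + 1) + 1) ≤ c ^ ((k + 5) * (s + 1)) :=
            Nat.pow_le_pow_right hc E5
        _ = (c ^ (k + 5)) ^ (s + 1) := pow_mul _ _ _
        _ ≤ (B ^ (k + 5)) ^ (s + 1) := Nat.pow_le_pow_left (Nat.pow_le_pow_left hcB _) _
        _ = n ^ (s + 1) := by rw [hn]
    exact_mod_cast h1
  have hPC := hpow C hC hB3
  have hP8 := hpow (8 * C) (by omega) hB2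
  have hP2 := hpow (2 ^ (k + 3)) Nat.one_le_two_pow hB1
  -- `W`
  set W : ℝ := 2 * (C : ℝ) ^ ((k + 4) * (s + 1) + 1) * (2 * n) ^ (2 * ((k + 4) * (s + 1)))
    with hW
  have hC0 : (0 : ℝ) < (C : ℝ) := by exact_mod_cast hC
  have hWpos : 0 < W := by rw [hW]; positivity
  have hWle : W ≤ (n : ℝ) ^ ((2 * k + 9) * (s + 1)) := by
    have e1 : ((2 : ℝ) * n) ^ (2 * ((k + 4) * (s + 1))) =
        (4 : ℝ) ^ ((k + 4) * (s + 1)) * (n : ℝ) ^ (2 * ((k + 4) * (s + 1))) := by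
      rw [mul_pow, pow_mul (2 : ℝ) 2]; norm_num
    have e2 : (2 : ℝ) * (4 : ℝ) ^ ((k + 4) * (s + 1)) ≤ (8 : ℝ) ^ ((k + 4) * (s + 1) + 1) := by
      have h1 : (4 : ℝ) ^ ((k + 4) * (s + 1)) ≤ (8 : ℝ) ^ ((k + 4) * (s + 1)) :=
        pow_le_pow_left₀ (by norm_num) (by norm_num) _
      have h2 : (0 : ℝ) < (8 : ℝ) ^ ((k + 4) * (s + 1)) := by positivity
      rw [pow_succ]
      linarith
    have e3 : (8 : ℝ) ^ ((k + 4) * (s + 1) + 1) * (C : ℝ) ^ ((k + 4) * (s + 1) + 1) ≤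
        (n : ℝ) ^ (s + 1) := by
      rw [← mul_pow]
      have := hP8
      push_cast at this
      exact this
    calc W = ((2 : ℝ) * (4 : ℝ) ^ ((k + 4) * (s + 1))) * (C : ℝ) ^ ((k + 4) * (s + 1) + 1) *
          (n : ℝ) ^ (2 * ((k + 4) * (s + 1))) := by rw [hW, e1]; ring
      _ ≤ ((8 : ℝ) ^ ((k + 4) * (s + 1) + 1)) * (C : ℝ) ^ ((k + 4) * (s + 1) + 1) *
          (n : ℝ) ^ (2 * ((k + 4) * (s + 1))) := by gcongr
      _ ≤ (n : ℝ) ^ (s + 1) * (n : ℝ) ^ (2 * ((k + 4) * (s + 1))) := by gcongr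
      _ = (n : ℝ) ^ ((2 * k + 9) * (s + 1)) := by rw [← pow_add]; congr 1; ring
  have hQ : (8 : ℝ) ^ ((k + 4) * (s + 1) + 1) * (2 * n) ^ (k * ((k + 4) * (s + 1) + 1)) ≤
      (n : ℝ) ^ (s + 1) * (n : ℝ) ^ (k * ((k + 4) * (s + 1) + 1)) := by
    have e1 : (8 : ℝ) ^ ((k + 4) * (s + 1) + 1) * (2 * n) ^ (k * ((k + 4) * (s + 1) + 1)) =
        ((2 : ℝ) ^ (k + 3)) ^ ((k + 4) * (s + 1) + 1) *
          (n : ℝ) ^ (k * ((k + 4) * (s + 1) + 1)) := by
      rw [mul_pow, ← mul_assoc]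
      congr 1
      rw [pow_mul, ← mul_pow]
      congr 1
      rw [pow_add]; norm_num [mul_comm]
    rw [e1]
    have := hP2
    push_cast at this
    gcongr
  -- the real power
  have hk0 : (0 : ℝ) < (k : ℝ) := by exact_mod_cast (by omega : 0 < k)
  set Y : ℝ := θ ^ (20 / (k : ℝ)) with hY
  have hYpos : 0 < Y := Real.rpow_pos_of_pos hθpos _
  have hε : θ ^ (-(20 / (k : ℝ))) = Y⁻¹ := Real.rpow_neg hθpos.le _
  have hYlow : (n : ℝ) ^ (b * s) ≤ Y := by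
    have h1 : ((n : ℝ) ^ (A * s)) ^ (20 / (k : ℝ)) ≤ Y :=
      Real.rpow_le_rpow (by positivity) hθlow (by positivity)
    refine le_trans ?_ h1
    rw [← Real.rpow_natCast_mul hx0.le, ← Real.rpow_natCast]
    apply Real.rpow_le_rpow_of_exponent_le hx1
    have h2 : (b : ℝ) ≤ A * (20 / (k : ℝ)) := by
      rw [mul_div_assoc', le_div_iff₀ hk0]
      have h3 : b * k ≤ A * 20 := by
        have h4 : b * k + 51 * k = 20 * k * k := by rw [← add_mul, hb]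
        nlinarith
      exact_mod_cast h3
    push_cast
    have hs0 : (0 : ℝ) ≤ (s : ℝ) := Nat.cast_nonneg s
    calc (b : ℝ) * s ≤ (A * (20 / (k : ℝ))) * s := mul_le_mul_of_nonneg_right h2 hs0
      _ = (A : ℝ) * s * (20 / (k : ℝ)) := by ring
  -- conclusions
  refine ⟨s + 1, by omega, W, rfl, ?_, ?_, ?_, ?_⟩
  · calc 8 * W * θ * (C : ℝ) ^ ((k + 4) * (s + 1) + 1)
        ≤ 8 * (n : ℝ) ^ ((2 * k + 9) * (s + 1)) * (n : ℝ) ^ (A * (s + 1)) *
          (n : ℝ) ^ (s + 1) := by gcongr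
      _ = 8 * (n : ℝ) ^ ((2 * k + 9) * (s + 1) + A * (s + 1) + (s + 1)) := by
          rw [pow_add, pow_add]; ring
      _ < (n : ℝ) * (n : ℝ) ^ ((2 * k + 9) * (s + 1) + A * (s + 1) + (s + 1)) := by
          apply mul_lt_mul_of_pos_right (by linarith) (by positivity)
      _ = (n : ℝ) ^ ((2 * k + 9) * (s + 1) + A * (s + 1) + (s + 1) + 1) := by ring
      _ ≤ (n : ℝ) ^ (k * (k * (s + 1) + 1)) := pow_le_pow_right₀ hx1 E1
  · rw [hε]
    have h1 : 16 * W ^ 2 < Y := by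
      calc 16 * W ^ 2 ≤ 16 * ((n : ℝ) ^ ((2 * k + 9) * (s + 1))) ^ 2 := by gcongr
        _ = 16 * (n : ℝ) ^ ((2 * k + 9) * (s + 1) * 2) := by rw [← pow_mul]
        _ < (n : ℝ) * (n : ℝ) ^ ((2 * k + 9) * (s + 1) * 2) := by
            apply mul_lt_mul_of_pos_right (by linarith) (by positivity)
        _ = (n : ℝ) ^ ((2 * k + 9) * (s + 1) * 2 + 1) := by ring
        _ ≤ (n : ℝ) ^ (b * s) := pow_le_pow_right₀ hx1 E2
        _ ≤ Y := hYlow
    have h2 : 16 * Y⁻¹ * W ^ 2 = (16 * W ^ 2) / Y := by rw [div_eq_mul_inv]; ring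
    rw [h2, div_lt_one hYpos]
    exact h1
  · rw [hε]
    have h1 : 4 * W * ((8 : ℝ) ^ ((k + 4) * (s + 1) + 1) *
        (2 * n) ^ (k * ((k + 4) * (s + 1) + 1))) ≤ θ * Y := by
      calc 4 * W * ((8 : ℝ) ^ ((k + 4) * (s + 1) + 1) *
            (2 * n) ^ (k * ((k + 4) * (s + 1) + 1)))
          ≤ (n : ℝ) ^ (s + 1) * (n : ℝ) ^ ((2 * k + 9) * (s + 1)) *
            ((n : ℝ) ^ (s + 1) * (n : ℝ) ^ (k * ((k + 4) * (s + 1) + 1))) := by
            have h4 : (4 : ℝ) ≤ (n : ℝ) ^ (s + 1) := by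
              calc (4 : ℝ) ≤ n := by linarith
                _ = (n : ℝ) ^ 1 := (pow_one _).symm
                _ ≤ (n : ℝ) ^ (s + 1) := pow_le_pow_right₀ hx1 (by omega)
            gcongr
        _ = (n : ℝ) ^ ((s + 1) + (2 * k + 9) * (s + 1) + (s + 1) +
            k * ((k + 4) * (s + 1) + 1)) := by
            rw [pow_add, pow_add, pow_add]; ring
        _ ≤ (n : ℝ) ^ (A * s + b * s) := pow_le_pow_right₀ hx1 E3
        _ = (n : ℝ) ^ (A * s) * (n : ℝ) ^ (b * s) := pow_add _ _ _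
        _ ≤ θ * Y := by gcongr
    have h2 : 4 * Y⁻¹ * W * (8 : ℝ) ^ ((k + 4) * (s + 1) + 1) *
        (2 * n) ^ (k * ((k + 4) * (s + 1) + 1)) =
        (4 * W * ((8 : ℝ) ^ ((k + 4) * (s + 1) + 1) *
          (2 * n) ^ (k * ((k + 4) * (s + 1) + 1)))) / Y := by
      rw [div_eq_mul_inv]; ring
    rw [h2, div_le_iff₀ hYpos]
    exact h1
  · calc 3 * W ≤ 3 * (n : ℝ) ^ ((2 * k + 9) * (s + 1)) := by gcongr
      _ < (n : ℝ) * (n : ℝ) ^ ((2 * k + 9) * (s + 1)) := by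
          apply mul_lt_mul_of_pos_right (by linarith) (by positivity)
      _ = (n : ℝ) ^ ((2 * k + 9) * (s + 1) + 1) := by ring
      _ ≤ (n : ℝ) ^ (4 * k * (s + 1)) := pow_le_pow_right₀ hx1 E4

end Pool.Agent.Helper12.GS
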